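import Pool.Agent.H61.HB.Stmts

/-!
# Board hbg (MP_91403e), row DIV

Elementary comparisons: divergence, directional derivatives, `L²` without the mean, `‖Δ f‖`, `H²`.
-/

set_option autoImplicit false

namespace HB

theorem div_sq_nonneg (k : Z2) : 0 ≤ sq k := by
  unfold sq
  positivity

/-- `|k|²` is a natural number -/
theorem div_sq_nat (k : Z2) : ∃ n : ℕ, sq k = n ∧ (n = 0 → k = 0) := by
  refine ⟨k.1.natAbs ^ 2 + k.2.natAbs ^ 2, ?_, ?_⟩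
  · unfold sq
    push_cast
    rw [Nat.cast_natAbs, Nat.cast_natAbs]
    push_cast
    rw [sq_abs, sq_abs]
  · intro h
    have h1 : k.1.natAbs ^ 2 = 0 ∧ k.2.natAbs ^ 2 = 0 := by omega
    have h2 : k.1 = 0 := by
      have := pow_eq_zero_iff (two_ne_zero) |>.1 h1.1
      omega
    have h3 : k.2 = 0 := by
      have := pow_eq_zero_iff (two_ne_zero) |>.1 h1.2
      omega
    exact Prod.ext h2 h3

theorem div_sq_le (k : Z2) : sq k ≤ sq k ^ 2 := by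
  obtain ⟨n, hn, -⟩ := div_sq_nat k
  rw [hn]
  exact_mod_cast Nat.le_self_pow two_ne_zero n

theorem div_one_le {k : Z2} (hk : k ≠ 0) : 1 ≤ sq k := by
  obtain ⟨n, hn, h0⟩ := div_sq_nat k
  rw [hn]
  have : n ≠ 0 := fun h => hk (h0 h)
  exact_mod_cast Nat.one_le_iff_ne_zero.2 this

theorem div_rpow (k : Z2) : (1 + sq k) ^ (2 : ℝ) = (1 + sq k) ^ 2 := by
  exact_mod_cast Real.rpow_natCast (1 + sq k) 2

theorem div_mem {f : Z2 → ℂ} (h : MemS 2 f) : Summable fun k => (1 + sq k) ^ 2 * ‖f k‖ ^ 2 := by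
  unfold MemS at h
  simpa only [div_rpow] using h

theorem div_ds_sum {f : Z2 → ℂ} (h : MemS 2 f) : Summable fun k => sq k ^ 2 * ‖f k‖ ^ 2 := by
  refine Summable.of_nonneg_of_le (fun k => by positivity) (fun k => ?_) (div_mem h)
  have h1 := div_sq_nonneg k
  gcongr
  linarith

theorem div_thm : DIVStmt := by
  refine ⟨fun w hw => ?_, fun d f hf => ?_, fun f hf => ?_⟩
  · have h1 : ∀ l, ‖dvg w l‖ ^ 2 ≤ sq l ^ 2 * ‖w 0 l‖ ^ 2 + sq l ^ 2 * ‖w 1 l‖ ^ 2 := by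
      intro l
      have h2 : ‖dvg w l‖ ≤ |(l.1 : ℝ)| * ‖w 0 l‖ + |(l.2 : ℝ)| * ‖w 1 l‖ := by
        unfold dvg
        rw [Fin.sum_univ_two]
        refine (norm_add_le _ _).trans (le_of_eq ?_)
        simp [co]
      have h3 : ‖dvg w l‖ ^ 2 ≤ (|(l.1 : ℝ)| * ‖w 0 l‖ + |(l.2 : ℝ)| * ‖w 1 l‖) ^ 2 := by
        gcongr
      have h4 : (|(l.1 : ℝ)| * ‖w 0 l‖ + |(l.2 : ℝ)| * ‖w 1 l‖) ^ 2 ≤
          sq l * (‖w 0 l‖ ^ 2 + ‖w 1 l‖ ^ 2) := by
        have h5 : sq l = |(l.1 : ℝ)| ^ 2 + |(l.2 : ℝ)| ^ 2 := by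
          rw [sq_abs, sq_abs]
          rfl
        rw [h5]
        nlinarith [sq_nonneg (|(l.1 : ℝ)| * ‖w 1 l‖ - |(l.2 : ℝ)| * ‖w 0 l‖)]
      have h6 : sq l * (‖w 0 l‖ ^ 2 + ‖w 1 l‖ ^ 2) ≤ sq l ^ 2 * (‖w 0 l‖ ^ 2 + ‖w 1 l‖ ^ 2) := by
        have := div_sq_le l
        gcongr
      linarith
    have hs0 := div_ds_sum (hw 0)
    have hs1 := div_ds_sum (hw 1)
    have hs := hs0.add hs1
    have hsd : Summable (fun l => ‖dvg w l‖ ^ 2) :=
      Summable.of_nonneg_of_le (fun k => by positivity) h1 hs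
    refine ⟨hsd, (hsd.tsum_le_tsum h1 hs).trans (le_of_eq ?_)⟩
    rw [hs0.tsum_add hs1, dsq, Fin.sum_univ_two]
    rfl
  · have h1 : ∀ l : Z2, ‖Complex.I * ((d.1 * l.1 + d.2 * l.2 : ℝ) : ℂ) * f l‖ ^ 2 ≤
        (d.1 ^ 2 + d.2 ^ 2) * (sq l ^ 2 * ‖f l‖ ^ 2) := by
      intro l
      rw [norm_mul, norm_mul, Complex.norm_I, Complex.norm_real, one_mul, mul_pow,
        Real.norm_eq_abs, sq_abs]
      have h2 : (d.1 * l.1 + d.2 * l.2) ^ 2 ≤ (d.1 ^ 2 + d.2 ^ 2) * sq l := by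
        unfold sq
        nlinarith [sq_nonneg (d.1 * l.2 - d.2 * l.1)]
      have h3 : (d.1 ^ 2 + d.2 ^ 2) * sq l ≤ (d.1 ^ 2 + d.2 ^ 2) * sq l ^ 2 := by
        have := div_sq_le l
        gcongr
      calc (d.1 * l.1 + d.2 * l.2) ^ 2 * ‖f l‖ ^ 2
          ≤ ((d.1 ^ 2 + d.2 ^ 2) * sq l ^ 2) * ‖f l‖ ^ 2 := by
            have := h2.trans h3
            gcongr
        _ = _ := by ring
    have hs := (div_ds_sum hf).mul_left (d.1 ^ 2 + d.2 ^ 2)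
    have hsd : Summable (fun l : Z2 => ‖Complex.I * ((d.1 * l.1 + d.2 * l.2 : ℝ) : ℂ) * f l‖ ^ 2) :=
      Summable.of_nonneg_of_le (fun k => by positivity) h1 hs
    refine ⟨hsd, (hsd.tsum_le_tsum h1 hs).trans (le_of_eq ?_)⟩
    rw [tsum_mul_left]
    rfl
  · have hsm := div_mem hf
    have hsd := div_ds_sum hf
    have h1 : ∀ k, ‖off f k‖ ^ 2 ≤ sq k ^ 2 * ‖f k‖ ^ 2 := by
      intro k
      unfold off
      by_cases hk : k = 0
      · rw [if_pos hk, norm_zero, zero_pow two_ne_zero]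
        positivity
      · rw [if_neg hk]
        have h2 := div_one_le hk
        have h3 : (1 : ℝ) ≤ sq k ^ 2 := one_le_pow₀ h2
        nlinarith [sq_nonneg ‖f k‖]
    have hso : Summable fun k => ‖off f k‖ ^ 2 :=
      Summable.of_nonneg_of_le (fun k => by positivity) h1 hsd
    have hN : nqS 2 f = ∑' k, (1 + sq k) ^ 2 * ‖f k‖ ^ 2 := by
      unfold nqS
      simp only [div_rpow]
    have h4 : flS f ≤ dsS f := hso.tsum_le_tsum h1 hsd
    have h5 : dsS f ≤ nqS 2 f := by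
      rw [hN]
      refine hsd.tsum_le_tsum (fun k => ?_) hsm
      have h6 := div_sq_nonneg k
      gcongr
      linarith
    refine ⟨tsum_nonneg fun k => by positivity, h4, h4.trans h5, h5, ?_⟩
    have hsi : Summable fun k : Z2 => if k = 0 then ‖f 0‖ ^ 2 else 0 :=
      (hasSum_ite_eq (0 : Z2) (‖f 0‖ ^ 2)).summable
    have hs4 := hsd.mul_left 4
    have h7 : ∀ k, (1 + sq k) ^ 2 * ‖f k‖ ^ 2 ≤ (if k = 0 then ‖f 0‖ ^ 2 else 0) +
        4 * (sq k ^ 2 * ‖f k‖ ^ 2) := by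
      intro k
      by_cases hk : k = 0
      · subst hk
        simp [sq]
      · rw [if_neg hk, zero_add]
        have h2 := div_one_le hk
        have h8 : (1 + sq k) ^ 2 ≤ 4 * sq k ^ 2 := by nlinarith
        calc (1 + sq k) ^ 2 * ‖f k‖ ^ 2 ≤ (4 * sq k ^ 2) * ‖f k‖ ^ 2 := by gcongr
          _ = _ := by ring
    rw [hN]
    refine (hsm.tsum_le_tsum h7 (hsi.add hs4)).trans (le_of_eq ?_)
    rw [hsi.tsum_add hs4, tsum_ite_eq, tsum_mul_left]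
    rfl

end HB
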