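import Pool.Agent.H61.HB.Stmts4

/-! Board fnd, row RST (helper86): the residual tested with `φ`. -/

set_option autoImplicit false

open Filter Topology

namespace HB

theorem rst_cs (x y : Z2 → ℝ) (hx : Summable fun k => x k ^ 2) (hy : Summable fun k => y k ^ 2) :
    Summable (fun k => x k * y k) ∧
      |∑' k, x k * y k| ≤ √(∑' k, x k ^ 2) * √(∑' k, y k ^ 2) := by
  have hs : Summable (fun k => x k * y k) := by
    refine Summable.of_norm_bounded (hx.add hy) fun k => ?_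
    rw [Real.norm_eq_abs, abs_mul]
    nlinarith [sq_nonneg (|x k| - |y k|), sq_abs (x k), sq_abs (y k), sq_nonneg (x k),
      sq_nonneg (y k)]
  refine ⟨hs, ?_⟩
  have ht : Tendsto (fun s : Finset Z2 => |∑ k ∈ s, x k * y k|) atTop (𝓝 |∑' k, x k * y k|) :=
    hs.hasSum.abs
  refine le_of_tendsto' ht fun s => ?_
  have h1 := Finset.sum_mul_sq_le_sq_mul_sq s x y
  have h2 : ∑ k ∈ s, x k ^ 2 ≤ ∑' k, x k ^ 2 := hx.sum_le_tsum s fun _ _ => sq_nonneg _
  have h3 : ∑ k ∈ s, y k ^ 2 ≤ ∑' k, y k ^ 2 := hy.sum_le_tsum s fun _ _ => sq_nonneg _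
  have h4 : 0 ≤ ∑ k ∈ s, x k ^ 2 := Finset.sum_nonneg fun _ _ => sq_nonneg _
  have h5 : 0 ≤ ∑ k ∈ s, y k ^ 2 := Finset.sum_nonneg fun _ _ => sq_nonneg _
  rw [← Real.sqrt_mul (h4.trans h2)]
  apply Real.abs_le_sqrt
  exact h1.trans (mul_le_mul h2 h3 h5 (h4.trans h2))

theorem rst_cs2 (a b : Fin 2 → ℝ) (ha : ∀ j, 0 ≤ a j) (hb : ∀ j, 0 ≤ b j) :
    ∑ j, √(a j) * √(b j) ≤ √(∑ j, a j) * √(∑ j, b j) := by
  have h := Finset.sum_mul_sq_le_sq_mul_sq Finset.univ (fun j => √(a j)) (fun j => √(b j))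
  rw [← Real.sqrt_mul (Finset.sum_nonneg fun j _ => ha j)]
  apply Real.le_sqrt_of_sq_le
  refine h.trans (le_of_eq ?_)
  congr 1
  · exact Finset.sum_congr rfl fun j _ => Real.sq_sqrt (ha j)
  · exact Finset.sum_congr rfl fun j _ => Real.sq_sqrt (hb j)

theorem rst_thm (hG : GRFStmt) : RSTStmt := by
  obtain ⟨h1, h2, -⟩ := hG
  intro φ R hφ hR
  obtain ⟨-, -, hφ0, -, -, -, -, hφm, -⟩ := h2 φ hφ
  obtain ⟨-, -, hR0, -, -, -, -, hRm, hR2⟩ := h2 R hR
  have hsq : ∀ k : Z2, 0 ≤ sq k := fun k => by unfold sq; positivity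
  -- the first sum
  have hA : |∑ j : Fin 2, ∑' k : Z2, ((starRingEnd ℂ) (off (φ j) k) * R j k).re / sq k| ≤
      √(hm φ) * √(hm R) := by
    have hj : ∀ j : Fin 2, |∑' k : Z2, ((starRingEnd ℂ) (off (φ j) k) * R j k).re / sq k| ≤
        √(hmS (φ j)) * √(hmS (R j)) := by
      intro j
      obtain ⟨-, -, -, s4, -⟩ := h1 (φ j) (hφ j)
      obtain ⟨-, -, -, t4, -⟩ := h1 (R j) (hR j)
      have e : ∀ (f : Z2 → ℂ) (k : Z2), (‖off f k‖ / √(sq k)) ^ 2 = ‖off f k‖ ^ 2 / sq k := by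
        intro f k
        rw [div_pow, Real.sq_sqrt (hsq k)]
      obtain ⟨c1, c2⟩ := rst_cs (fun k => ‖off (φ j) k‖ / √(sq k)) (fun k => ‖off (R j) k‖ / √(sq k))
        (by simpa only [e] using s4) (by simpa only [e] using t4)
      simp only [e] at c2
      have hle : ∀ k : Z2, ‖((starRingEnd ℂ) (off (φ j) k) * R j k).re / sq k‖ ≤
          ‖off (φ j) k‖ / √(sq k) * (‖off (R j) k‖ / √(sq k)) := by
        intro k
        rw [Real.norm_eq_abs, abs_div, abs_of_nonneg (hsq k), div_mul_div_comm,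
          Real.mul_self_sqrt (hsq k)]
        apply div_le_div_of_nonneg_right _ (hsq k)
        by_cases hk : k = 0
        · simp [off, hk]
        · have : off (R j) k = R j k := by simp [off, hk]
          rw [this]
          refine (Complex.abs_re_le_norm _).trans ?_
          rw [norm_mul, RCLike.norm_conj]
      have hsum : Summable fun k : Z2 => ‖((starRingEnd ℂ) (off (φ j) k) * R j k).re / sq k‖ :=
        Summable.of_nonneg_of_le (fun _ => norm_nonneg _) hle c1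
      calc |∑' k : Z2, ((starRingEnd ℂ) (off (φ j) k) * R j k).re / sq k|
          ≤ ∑' k : Z2, ‖((starRingEnd ℂ) (off (φ j) k) * R j k).re / sq k‖ := by
            rw [← Real.norm_eq_abs]
            exact norm_tsum_le_tsum_norm hsum
        _ ≤ ∑' k : Z2, ‖off (φ j) k‖ / √(sq k) * (‖off (R j) k‖ / √(sq k)) :=
            hsum.tsum_le_tsum hle c1
        _ ≤ |∑' k : Z2, ‖off (φ j) k‖ / √(sq k) * (‖off (R j) k‖ / √(sq k))| := le_abs_self _
        _ ≤ √(hmS (φ j)) * √(hmS (R j)) := c2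
    calc |∑ j : Fin 2, ∑' k : Z2, ((starRingEnd ℂ) (off (φ j) k) * R j k).re / sq k|
        ≤ ∑ j : Fin 2, |∑' k : Z2, ((starRingEnd ℂ) (off (φ j) k) * R j k).re / sq k| :=
          Finset.abs_sum_le_sum_abs _ _
      _ ≤ ∑ j : Fin 2, √(hmS (φ j)) * √(hmS (R j)) := Finset.sum_le_sum fun j _ => hj j
      _ ≤ √(hm φ) * √(hm R) := rst_cs2 _ _
          (fun j => (h1 (φ j) (hφ j)).2.2.2.2.2.1) (fun j => (h1 (R j) (hR j)).2.2.2.2.2.1)
  -- the means
  have hB : |∑ j : Fin 2, ((starRingEnd ℂ) (φ j 0) * R j 0).re| ≤ √(mu φ) * √(mu R) := by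
    calc |∑ j : Fin 2, ((starRingEnd ℂ) (φ j 0) * R j 0).re|
        ≤ ∑ j : Fin 2, |((starRingEnd ℂ) (φ j 0) * R j 0).re| := Finset.abs_sum_le_sum_abs _ _
      _ ≤ ∑ j : Fin 2, √(‖φ j 0‖ ^ 2) * √(‖R j 0‖ ^ 2) := by
          refine Finset.sum_le_sum fun j _ => ?_
          rw [Real.sqrt_sq (norm_nonneg _), Real.sqrt_sq (norm_nonneg _)]
          refine (Complex.abs_re_le_norm _).trans ?_
          rw [norm_mul, RCLike.norm_conj]
      _ ≤ √(mu φ) * √(mu R) := rst_cs2 _ _ (fun _ => sq_nonneg _) (fun _ => sq_nonneg _)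
  have hX : √(hm φ) ≤ √(hm φ + mu φ) := Real.sqrt_le_sqrt (by linarith)
  have hX2 : √(mu φ) ≤ √(hm φ + mu φ) := Real.sqrt_le_sqrt (by linarith)
  have hN0 : 0 ≤ nsq (-1) R := by linarith
  have hY : ∀ x : ℝ, x ≤ 2 * nsq (-1) R → √x ≤ 2 * √(nsq (-1) R) := by
    intro x hx
    rw [Real.sqrt_le_left (by positivity)]
    rw [mul_pow, Real.sq_sqrt hN0]
    linarith
  have hY1 : √(hm R) ≤ 2 * √(nsq (-1) R) := hY _ (by linarith)
  have hY2 : √(mu R) ≤ 2 * √(nsq (-1) R) := hY _ (by linarith)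
  have m1 : √(hm φ) * √(hm R) ≤ √(hm φ + mu φ) * (2 * √(nsq (-1) R)) :=
    mul_le_mul hX hY1 (Real.sqrt_nonneg _) (Real.sqrt_nonneg _)
  have m2 : √(mu φ) * √(mu R) ≤ √(hm φ + mu φ) * (2 * √(nsq (-1) R)) :=
    mul_le_mul hX2 hY2 (Real.sqrt_nonneg _) (Real.sqrt_nonneg _)
  linarith

end HB
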