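import Pool.Agent.H61.HB.Stmts5
import Pool.Agent.H23.HB.GRF

/-! Board fn3, row GR3 (helper86): elementary facts (model: GRF of helper23). -/

set_option autoImplicit false

namespace HB

namespace GR3

open GRF

theorem rt_cases (k : Z2) : (k = 0 ∧ sq k = 0 ∧ √(sq k) = 0) ∨
    (k ≠ 0 ∧ 1 ≤ sq k ∧ 1 ≤ √(sq k) ∧ √(sq k) ≤ sq k) := by
  rcases sq_cases k with ⟨h, h1⟩ | ⟨h, h1⟩
  · exact Or.inl ⟨h, h1, by rw [h1, Real.sqrt_zero]⟩
  · refine Or.inr ⟨h, h1, Real.one_le_sqrt.2 h1, ?_⟩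
    rw [Real.sqrt_le_left (by linarith)]
    nlinarith

theorem suma {f : Z2 → ℂ} (hf : MemS 2 f) : Summable fun k => √(sq k) * ‖f k‖ ^ 2 := by
  refine ((sum0 hf).add (sum1 hf)).of_nonneg_of_le (fun k => by positivity) fun k => ?_
  rcases rt_cases k with ⟨-, h1, h2⟩ | ⟨-, h1, h2, h3⟩
  · rw [h2, h1]
    nlinarith [sq_nonneg ‖f k‖]
  · nlinarith [sq_nonneg ‖f k‖, mul_le_mul_of_nonneg_right h3 (sq_nonneg ‖f k‖)]

theorem off_div_le (f : Z2 → ℂ) (k : Z2) : ‖off f k‖ ^ 2 / (sq k * √(sq k)) ≤ ‖off f k‖ ^ 2 := by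
  rcases rt_cases k with ⟨-, h1, h2⟩ | ⟨-, h1, h2, h3⟩
  · rw [h1, zero_mul, div_zero]
    positivity
  · exact div_le_self (by positivity) (by nlinarith)

theorem nn (k : Z2) : 0 ≤ sq k * √(sq k) := mul_nonneg (sq_nonneg' k) (Real.sqrt_nonneg _)

theorem sumb {f : Z2 → ℂ} (hf : MemS 2 f) : Summable fun k => ‖off f k‖ ^ 2 / (sq k * √(sq k)) :=
  (sum3 hf).of_nonneg_of_le (fun k => div_nonneg (by positivity) (nn k)) (off_div_le f)

theorem hn_nonneg (f : Z2 → ℂ) : 0 ≤ hnS f :=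
  tsum_nonneg fun k => div_nonneg (by positivity) (nn k)

theorem hn_le {f : Z2 → ℂ} (hf : MemS 2 f) : hnS f ≤ flS f :=
  (sumb hf).tsum_le_tsum (off_div_le f) (sum3 hf)

theorem fl_le {f : Z2 → ℂ} (hf : MemS 2 f) : flS f ≤ hpS f := by
  refine (sum3 hf).tsum_le_tsum (fun k => ?_) (suma hf)
  rcases rt_cases k with ⟨h, h1, h2⟩ | ⟨h, h1, h2, h3⟩
  · rw [h2, zero_mul, h]
    simp [off]
  · refine (off_le f k).trans ?_
    nlinarith [mul_le_mul_of_nonneg_right h2 (sq_nonneg ‖f k‖)]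

theorem hp_le {f : Z2 → ℂ} (hf : MemS 2 f) : hpS f ≤ dsS f := by
  refine (suma hf).tsum_le_tsum (fun k => ?_) (sum2 hf)
  rcases rt_cases k with ⟨h, h1, h2⟩ | ⟨h, h1, h2, h3⟩
  · rw [h2, h1]
    simp
  · refine mul_le_mul_of_nonneg_right ?_ (by positivity)
    nlinarith

theorem rp (x : ℝ) (hx : 0 < x) : x ^ (-(3 / 2) : ℝ) = (x * √x)⁻¹ := by
  rw [Real.rpow_neg hx.le]
  congr 1
  have h : (3 / 2 : ℝ) = 1 + 1 / 2 := by norm_num
  rw [h, Real.rpow_add hx, Real.rpow_one, ← Real.sqrt_eq_rpow]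

theorem weak {f : Z2 → ℂ} (hf : MemS 2 f) : hnS f + ‖f 0‖ ^ 2 ≤ 4 * nqS (-(3 / 2)) f := by
  have h0 : HasSum (fun k : Z2 => if k = 0 then ‖f 0‖ ^ 2 else 0) (‖f 0‖ ^ 2) :=
    hasSum_ite_eq 0 _
  have hs : Summable fun k => (1 + sq k) ^ (-(3 / 2) : ℝ) * ‖f k‖ ^ 2 := by
    refine (sum0 hf).of_nonneg_of_le (fun k => mul_nonneg
      (Real.rpow_nonneg (by linarith [sq_nonneg' k]) _) (by positivity)) fun k => ?_
    have h1 : (1 + sq k) ^ (-(3 / 2) : ℝ) ≤ 1 :=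
      Real.rpow_le_one_of_one_le_of_nonpos (by linarith [sq_nonneg' k]) (by norm_num)
    nlinarith [sq_nonneg ‖f k‖]
  have h2 : hnS f + ‖f 0‖ ^ 2 =
      ∑' k, (‖off f k‖ ^ 2 / (sq k * √(sq k)) + if k = 0 then ‖f 0‖ ^ 2 else 0) := by
    rw [Summable.tsum_add (sumb hf) h0.summable, h0.tsum_eq]
    rfl
  rw [h2]
  unfold nqS
  rw [← tsum_mul_left]
  refine Summable.tsum_le_tsum (fun k => ?_) ((sumb hf).add h0.summable) (hs.mul_left 4)
  rcases rt_cases k with ⟨h, h3, h4⟩ | ⟨h, h3, h4, h5⟩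
  · rw [if_pos h, h3, h]
    simp [off]
    nlinarith [sq_nonneg ‖f 0‖]
  · rw [if_neg h, add_zero, rp _ (by linarith)]
    have h6 : off f k = f k := by simp [off, h]
    rw [h6]
    have h7 : 0 < sq k := by linarith
    have h8 : 0 < √(sq k) := by linarith
    have h9 : √(1 + sq k) ≤ 2 * √(sq k) := by
      rw [Real.sqrt_le_left (by positivity), mul_pow, Real.sq_sqrt h7.le]
      linarith
    have h10 : (1 + sq k) * √(1 + sq k) ≤ 4 * (sq k * √(sq k)) := by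
      calc (1 + sq k) * √(1 + sq k) ≤ (2 * sq k) * (2 * √(sq k)) :=
            mul_le_mul (by linarith) h9 (Real.sqrt_nonneg _) (by linarith)
        _ = 4 * (sq k * √(sq k)) := by ring
    have h11 : 0 < (1 + sq k) * √(1 + sq k) :=
      mul_pos (by linarith) (Real.sqrt_pos.2 (by linarith))
    have h12 : 1 / (sq k * √(sq k)) ≤ 4 * ((1 + sq k) * √(1 + sq k))⁻¹ := by
      rw [← div_eq_mul_inv, div_le_div_iff₀ (mul_pos h7 h8) h11]
      linarith
    calc ‖f k‖ ^ 2 / (sq k * √(sq k)) = 1 / (sq k * √(sq k)) * ‖f k‖ ^ 2 := by ring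
      _ ≤ 4 * ((1 + sq k) * √(1 + sq k))⁻¹ * ‖f k‖ ^ 2 :=
          mul_le_mul_of_nonneg_right h12 (by positivity)
      _ = 4 * (((1 + sq k) * √(1 + sq k))⁻¹ * ‖f k‖ ^ 2) := by ring

theorem hp_tri {f g : Z2 → ℂ} (hf : MemS 2 f) (hg : MemS 2 g) :
    hpS g ≤ 2 * hpS (g - f) + 2 * hpS f := by
  have hs : Summable fun k => √(sq k) * ‖(g - f) k‖ ^ 2 := by
    refine (((suma hg).mul_left 2).add ((suma hf).mul_left 2)).of_nonneg_of_le
      (fun k => by positivity) fun k => ?_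
    have h1 := tri (-f k) (g k - f k)
    have h2 : g k - f k - -f k = g k := by ring
    rw [h2, norm_neg] at h1
    have h3 := mul_le_mul_of_nonneg_left h1 (Real.sqrt_nonneg (sq k))
    have h4 : (g - f) k = g k - f k := rfl
    rw [h4]
    linarith
  unfold hpS
  rw [← tsum_mul_left, ← tsum_mul_left, ← Summable.tsum_add (hs.mul_left 2) ((suma hf).mul_left 2)]
  refine Summable.tsum_le_tsum (fun k => ?_) (suma hg) ((hs.mul_left 2).add ((suma hf).mul_left 2))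
  have h1 := mul_le_mul_of_nonneg_left (tri (f k) (g k)) (Real.sqrt_nonneg (sq k))
  have h4 : (g - f) k = g k - f k := rfl
  rw [h4]
  linarith

end GR3

open GR3 in
theorem gr3_thm : GR3Stmt := by
  refine ⟨fun f hf => ⟨suma hf, sumb hf, hn_nonneg f, hn_le hf, fl_le hf, hp_le hf⟩,
    fun w hw => ?_, fun u v hu hv => ?_⟩
  · have hg : hp w = hpS (w 0) + hpS (w 1) := by unfold hp; rw [Fin.sum_univ_two]
    have hh : hn w = hnS (w 0) + hnS (w 1) := by unfold hn; rw [Fin.sum_univ_two]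
    have hl : flu w = flS (w 0) + flS (w 1) := by unfold flu; rw [Fin.sum_univ_two]
    have hq : dsq w = dsS (w 0) + dsS (w 1) := by unfold dsq; rw [Fin.sum_univ_two]
    have hm' : mu w = ‖w 0 0‖ ^ 2 + ‖w 1 0‖ ^ 2 := by unfold mu; rw [Fin.sum_univ_two]
    have hn' : nsq (-(3 / 2)) w = nqS (-(3 / 2)) (w 0) + nqS (-(3 / 2)) (w 1) := by
      unfold nsq; rw [Fin.sum_univ_two]
    refine ⟨?_, ?_, ?_, ?_, ?_⟩
    · rw [hh]
      exact add_nonneg (hn_nonneg _) (hn_nonneg _)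
    · rw [hh, hl]
      exact add_le_add (hn_le (hw 0)) (hn_le (hw 1))
    · rw [hl, hg]
      exact add_le_add (fl_le (hw 0)) (fl_le (hw 1))
    · rw [hg, hq]
      exact add_le_add (hp_le (hw 0)) (hp_le (hw 1))
    · rw [hh, hm', hn']
      have h1 := weak (hw 0)
      have h2 := weak (hw 1)
      linarith
  · have h1 := hp_tri (hu 0) (hv 0)
    have h2 := hp_tri (hu 1) (hv 1)
    unfold hp
    rw [Fin.sum_univ_two, Fin.sum_univ_two, Fin.sum_univ_two]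
    have h3 : (v - u) 0 = v 0 - u 0 := rfl
    have h4 : (v - u) 1 = v 1 - u 1 := rfl
    rw [h3, h4]
    linarith

end HB
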